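import Pool.Agent.R497.TB.Defs
import Pool.Agent.R497.TD.PINC

/-!
Project TB (MP_f720ae_an), piece BCT1: smoothing error over grid boxes.
-/

set_option autoImplicit false

namespace Pool.Agent.R577.TB

open MeasureTheory Filter Finset
open Pool.Agent.Y957.MC (IsFlow flowInv smo bavg)
open Pool.Agent.R497.TB

universe u

lemma smo_meas {X : Type u} [MeasurableSpace X] {μ : Measure X} {τ : ℝ → X → X} {e : X → ℝ}
    (hτ : IsFlow μ τ) (he : Measurable e) {T : ℝ} (hT : 0 ≤ T) : Measurable (smo τ e T) := by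
  unfold smo
  refine Measurable.const_mul ?_ _
  simp only [intervalIntegral.integral_of_le hT]
  have h1 : StronglyMeasurable (fun p : X × ℝ => e (τ p.2 p.1)) :=
    (he.comp (hτ.meas.comp (measurable_snd.prodMk measurable_fst))).stronglyMeasurable
  exact (h1.integral_prod_right' (ν := volume.restrict (Set.Ioc 0 T))).measurable

lemma smo_bd {X : Type u} [MeasurableSpace X] {μ : Measure X} {τ : ℝ → X → X} {e : X → ℝ}
    (hτ : IsFlow μ τ) (he : Measurable e) (he1 : ∀ x, 0 ≤ e x ∧ e x ≤ 1) {T : ℝ} (hT : 0 < T)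
    (x : X) : 0 ≤ smo τ e T x ∧ smo τ e T x ≤ 1 := by
  unfold smo
  have hm : Measurable (fun r : ℝ => e (τ r x)) :=
    he.comp (hτ.meas.comp (measurable_id.prodMk measurable_const))
  have hint : IntervalIntegrable (fun r : ℝ => e (τ r x)) volume 0 T := by
    rw [intervalIntegrable_iff_integrableOn_Ioc_of_le hT.le]
    refine Measure.integrableOn_of_bounded (M := 1) (by simp) hm.aestronglyMeasurable ?_
    refine Eventually.of_forall fun r => ?_
    rw [Real.norm_eq_abs, abs_of_nonneg (he1 _).1]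
    exact (he1 _).2
  constructor
  · exact mul_nonneg (by positivity) (intervalIntegral.integral_nonneg hT.le fun r _ => (he1 _).1)
  · have h1 : ∫ r in (0 : ℝ)..T, e (τ r x) ≤ ∫ _ in (0 : ℝ)..T, (1 : ℝ) :=
      intervalIntegral.integral_mono_on hT.le hint intervalIntegrable_const fun r _ => (he1 _).2
    rw [intervalIntegral.integral_const, sub_zero, smul_eq_mul, mul_one] at h1
    rw [one_div, inv_mul_le_iff₀ hT, mul_one]
    exact h1

lemma diff_bd {X : Type u} [MeasurableSpace X] {μ : Measure X} {τ : ℝ → X → X} {e : X → ℝ}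
    (hτ : IsFlow μ τ) (he : Measurable e) (he1 : ∀ x, 0 ≤ e x ∧ e x ≤ 1) {T : ℝ} (hT : 0 < T)
    (x : X) : |e x - smo τ e T x| ≤ 1 := by
  have h1 := he1 x
  have h2 := smo_bd hτ he he1 hT x
  rw [abs_le]
  constructor <;> linarith [h1.1, h1.2, h2.1, h2.2]

lemma card_box {k : ℕ} (M : Fin k → ℕ) : (Pool.Agent.Y957.MC.box M).card = ∏ i, M i := by
  unfold Pool.Agent.Y957.MC.box
  rw [Fintype.card_piFinset]
  refine Finset.prod_congr rfl fun i _ => ?_
  rw [Nat.card_Icc, Nat.add_sub_cancel]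

lemma abs_ravg_le {k : ℕ} (M : Fin k → ℕ) (h : (Fin k → ℕ) → ℝ) (hh : ∀ m, |h m| ≤ 1) :
    |ravg M h| ≤ 1 := by
  unfold ravg
  have h1 : |∑ m ∈ Pool.Agent.Y957.MC.box M, h m| ≤ ((∏ i, M i : ℕ) : ℝ) := by
    refine (Finset.abs_sum_le_sum_abs _ _).trans ?_
    refine (Finset.sum_le_sum fun m _ => hh m).trans (le_of_eq ?_)
    rw [Finset.sum_const, card_box, nsmul_eq_mul, mul_one]
  have h0 : (0 : ℝ) ≤ ((∏ i, M i : ℕ) : ℝ) := Nat.cast_nonneg _
  rw [abs_mul, abs_of_nonneg (by positivity)]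
  rcases eq_or_lt_of_le h0 with h2 | h2
  · rw [← h2]; simp
  · rw [one_div, inv_mul_le_iff₀ h2, mul_one]
    exact h1

lemma sep_update {k : ℕ} (p : Fin k → Polynomial ℝ) (i : Fin k) (m : Fin k → ℕ) (y y' : ℕ) :
    sep p (Function.update m i y) - sep p (Function.update m i y') =
      (p i).eval (y : ℝ) - (p i).eval (y' : ℝ) := by
  unfold sep
  rw [← Finset.sum_sub_distrib, Finset.sum_eq_single i]
  · simp
  · intro l _ hl
    rw [Function.update_of_ne hl, Function.update_of_ne hl, sub_self]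
  · intro h
    exact (h (mem_univ i)).elim

/-- the averages -/
noncomputable def Dt {X : Type u} {k : ℕ} (τ : ℝ → X → X) (e : X → ℝ) (d : ℕ)
    (p : Fin k → Polynomial ℝ) (i : Fin k) (j : ℕ) (t : Fin k → ℕ) (ω : ℝ × X) : ℝ :=
  ravg (gbx (8 * (k + 1)) t) (fun m => if cut j (gbx (8 * (k + 1)) t i) < m i then
        e (τ (ω.1 * sep p m) ω.2) - smo τ e (((t i : ℝ) + 1) ^ (8 * (k + 1) * d - 2 * (k + 1)))
          (τ (ω.1 * sep p m) ω.2) else 0)

lemma Dt_meas {X : Type u} [MeasurableSpace X] {μ : Measure X} {k : ℕ} {τ : ℝ → X → X} {e : X → ℝ}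
    (hτ : IsFlow μ τ) (he : Measurable e) (d : ℕ)
    (p : Fin k → Polynomial ℝ) (i : Fin k) (j : ℕ) (t : Fin k → ℕ) :
    Measurable (Dt τ e d p i j t) := by
  unfold Dt ravg
  refine Measurable.const_mul ?_ _
  refine Finset.measurable_sum _ fun m _ => ?_
  beta_reduce
  split_ifs
  · have h1 : Measurable (fun ω : ℝ × X => τ (ω.1 * sep p m) ω.2) :=
      hτ.meas.comp ((measurable_fst.mul_const _).prodMk measurable_snd)
    exact (he.comp h1).sub ((smo_meas hτ he (by positivity)).comp h1)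
  · exact measurable_const

lemma Dt_bd {X : Type u} [MeasurableSpace X] {μ : Measure X} {k : ℕ} {τ : ℝ → X → X} {e : X → ℝ}
    (hτ : IsFlow μ τ) (he : Measurable e) (he1 : ∀ x, 0 ≤ e x ∧ e x ≤ 1) (d : ℕ)
    (p : Fin k → Polynomial ℝ) (i : Fin k) (j : ℕ) (t : Fin k → ℕ) (ω : ℝ × X) :
    |Dt τ e d p i j t ω| ≤ 1 := by
  unfold Dt
  refine abs_ravg_le _ _ fun m => ?_
  split_ifs
  · exact diff_bd hτ he he1 (by positivity) _
  · simp

lemma Dt_eq {X : Type u} {k : ℕ} {τ : ℝ → X → X} {e : X → ℝ} (d : ℕ)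
    (p : Fin k → Polynomial ℝ) (i : Fin k) (j : ℕ) (t : Fin k → ℕ) {M : Fin k → ℕ}
    (hM : gbx (8 * (k + 1)) t = M) {T : ℝ}
    (hT : ((t i : ℝ) + 1) ^ (8 * (k + 1) * d - 2 * (k + 1)) = T) {S : ℕ} {en : ℕ → Fin k → ℕ}
    (hMpos : ∀ l, 0 < M l) (hSM : S * M i = ∏ l, M l)
    (hen : ∀ u w, u < S → w < M i → en (u * M i + w) = Function.update (en (u * M i)) i (w + 1))
    (hsum : ∀ F : (Fin k → ℕ) → ℝ,
      ∑ n ∈ range (S * M i), F (en n) = ∑ m ∈ Pool.Agent.Y957.MC.box M, F m) (a : ℝ) (x : X) :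
    Dt τ e d p i j t (a, x) = (1 / ((S * M i : ℕ) : ℝ)) * ∑ n ∈ range (S * M i),
      if cut j (M i) ≤ n % M i then
        e (τ (a * sep p (en n)) x) - smo τ e T (τ (a * sep p (en n)) x) else 0 := by
  have h0 := hsum (fun m => if cut j (M i) < m i then
    e (τ (a * sep p m) x) - smo τ e T (τ (a * sep p m) x) else 0)
  unfold Dt ravg
  rw [hM, hT, ← h0, ← hSM]
  congr 1
  refine Finset.sum_congr rfl fun n hn => ?_
  have hn' : n < S * M i := Finset.mem_range.1 hn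
  have h1 : n / M i < S := Nat.div_lt_of_lt_mul (by rw [mul_comm]; exact hn')
  have h2 : n % M i < M i := Nat.mod_lt _ (hMpos i)
  have h3 : en n i = n % M i + 1 := by
    have h4 := hen (n / M i) (n % M i) h1 h2
    have h5 : n / M i * M i + n % M i = n := by
      rw [mul_comm]; exact Nat.div_add_mod n (M i)
    rw [h5] at h4
    rw [h4, Function.update_self]
  by_cases hg : cut j (M i) ≤ n % M i
  · rw [if_pos (by rw [h3]; exact Nat.lt_succ_of_le hg), if_pos hg]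
  · rw [if_neg (by rw [h3]; exact fun h => hg (Nat.le_of_lt_succ h)), if_neg hg]

/-- the polynomial with positive leading coefficient -/
lemma pos_poly {k d : ℕ} {p : Fin k → Polynomial ℝ} (hp : SD p d) (i : Fin k) :
    ∃ (P : Polynomial ℝ) (s : ℝ), |s| = 1 ∧ P.natDegree = d ∧ 0 < P.leadingCoeff ∧
      ∀ x, P.eval x = s * (p i).eval x := by
  have h0 : p i ≠ 0 := by
    intro h
    have := hp.2 i
    rw [h, Polynomial.natDegree_zero] at this
    exact hp.1.ne this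
  rcases lt_or_gt_of_ne (Polynomial.leadingCoeff_ne_zero.2 h0) with h | h
  · refine ⟨-p i, -1, by simp, ?_, ?_, ?_⟩
    · rw [Polynomial.natDegree_neg]; exact hp.2 i
    · rw [Polynomial.leadingCoeff_neg]; linarith
    · intro x
      rw [Polynomial.eval_neg]; ring
  · exact ⟨p i, 1, by simp, hp.2 i, h, fun x => by ring⟩

lemma main_bound (hE : S_ENUM) (hB : S_BBAD) (hS : S_BSM.{u}) {X : Type u} [MeasurableSpace X]
    (μ : Measure X) [IsProbabilityMeasure μ] (τ : ℝ → X → X) (e : X → ℝ) (k d : ℕ)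
    (p : Fin k → Polynomial ℝ) (hτ : IsFlow μ τ) (he : Measurable e) (he1 : ∀ x, 0 ≤ e x ∧ e x ≤ 1)
    (hp : SD p d) (i : Fin k) (j : ℕ) :
    ∃ (C : ℝ) (T₀ : ℕ), ∀ t : Fin k → ℕ, T₀ ≤ t i → (∀ l, t l ≤ t i) →
      ∫ a in (1 : ℝ)..2, ∫ x, (Dt τ e d p i j t (a, x)) ^ 2 ∂μ ≤ C / ((t i : ℝ) + 1) ^ (k + 1) := by
  obtain ⟨P, s, hs, hPd, hPl, hPe⟩ := pos_poly hp i
  have hd : 0 < d := hp.1
  obtain ⟨c, C, hc, hC, hinc⟩ := Pool.Agent.R497.TD.PINC784.t_PINC P (by rw [hPd]; exact hd) hPl j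
  obtain ⟨N₀, hN₀⟩ := eventually_atTop.1 hinc
  rw [hPd] at hN₀
  refine ⟨2 / c + 5, max N₀ (j + 1), fun t ht hlt => ?_⟩
  set K : ℝ := (t i : ℝ) + 1 with hK
  have hK1 : 1 ≤ K := by
    rw [hK]
    have : (0 : ℝ) ≤ t i := Nat.cast_nonneg _
    linarith
  have hK0 : 0 < K := by linarith
  obtain ⟨M, hM⟩ : ∃ M, gbx (8 * (k + 1)) t = M := ⟨_, rfl⟩
  have hMl : ∀ l, M l = (t l + 1) ^ (8 * (k + 1)) := fun l => by rw [← hM]; rfl
  have hMiR : ((M i : ℕ) : ℝ) = K ^ (8 * (k + 1)) := by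
    rw [hMl, hK]; push_cast; rfl
  have hMpos : ∀ l, 0 < M l := fun l => by
    rw [hMl]
    exact Nat.pow_pos (Nat.succ_pos _)
  have hMge : t i + 1 ≤ M i := by
    rw [hMl]
    calc t i + 1 = (t i + 1) ^ 1 := (pow_one _).symm
      _ ≤ (t i + 1) ^ (8 * (k + 1)) := Nat.pow_le_pow_right (by omega) (by omega)
  have hMN : N₀ ≤ M i := le_trans (le_max_left N₀ (j + 1)) (le_trans ht (by omega))
  have hMj : j + 1 ≤ M i := le_trans (le_max_right N₀ (j + 1)) (le_trans ht (by omega))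
  obtain ⟨cu, hcu⟩ : ∃ cu, cut j (M i) = cu := ⟨_, rfl⟩
  have hcu1 : 1 ≤ cu := by
    rw [← hcu]
    unfold cut
    rw [Nat.one_le_floor_iff, one_div, inv_mul_eq_div, le_div_iff₀ (by positivity), one_mul]
    exact_mod_cast hMj
  obtain ⟨S, en, hS0, hSM, hen, henb, hsum⟩ := hE k i M hMpos
  set N := S * M i with hN
  have hN0 : 0 < N := Nat.mul_pos hS0 (hMpos i)
  set Q : ℕ → ℝ := fun n => sep p (en n) with hQ
  set G : Finset ℕ := (range N).filter (fun n => cu ≤ n % M i) with hG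
  set Y : ℝ := K ^ (8 * (k + 1) * d - (k + 1)) with hY
  set T : ℝ := K ^ (8 * (k + 1) * d - 2 * (k + 1)) with hT
  have hY0 : 0 < Y := by positivity
  have hT0 : 0 < T := by positivity
  set q : ℕ → ℝ := fun n => s * Q n with hq
  have hqQ : ∀ n n', |q n - q n'| = |Q n - Q n'| := by
    intro n n'
    have : q n - q n' = s * (Q n - Q n') := by simp only [hq]; ring
    rw [this, abs_mul, hs, one_mul]
  set Near : Finset (ℕ × ℕ) := ((range (S * M i) ×ˢ range (S * M i)).filter fun p =>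
    cu - 1 < p.1 % M i ∧ cu - 1 < p.2 % M i ∧ |q p.1 - q p.2| < Y) with hNear
  set A : ℝ := c * ((M i : ℕ) : ℝ) ^ (d - 1) with hA
  have hA0 : 0 < A := by
    have : (0 : ℝ) < ((M i : ℕ) : ℝ) := by exact_mod_cast hMpos i
    positivity
  have hbad := hB S (M i) (cu - 1) q A Y (hMpos i) hA0 hY0.le (by
    intro u v hu hv hv'
    have h1 : q (u * M i + (v + 1)) - q (u * M i + v) =
        P.eval ((v : ℝ) + 2) - P.eval ((v : ℝ) + 1) := by
      simp only [hq, hQ]
      rw [hen u (v + 1) hu hv', hen u v hu (by omega), ← mul_sub, sep_update, hPe, hPe, ← mul_sub]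
      push_cast
      ring_nf
    rw [h1]
    exact (hN₀ (M i) hMN v (by
      have h7 : cut j (M i) ≤ v := by rw [hcu]; omega
      exact h7) (by omega)).1)
  have hbsm := hS X μ τ e Q N G Near T Y hτ he he1 hN0 hT0 hY0 (by
    intro n n' hn hn' hnG hnG' hnear
    rw [hG, Finset.mem_filter] at hnG hnG'
    by_contra hlt'
    apply hnear
    rw [hNear, Finset.mem_filter, Finset.mem_product, Finset.mem_range, Finset.mem_range]
    have g1 := hnG.2
    have g2 := hnG'.2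
    refine ⟨⟨hn, hn'⟩, ?_, ?_, ?_⟩
    · change cu - 1 < n % M i
      omega
    · change cu - 1 < n' % M i
      omega
    change |q n - q n'| < Y
    rw [hqQ]
    exact not_le.1 hlt')
  -- rewriting the averages
  have hDt : ∀ a x, Dt τ e d p i j t (a, x) = (1 / (N : ℝ)) * ∑ n ∈ range N,
      if n ∈ G then e (τ (a * Q n) x) - smo τ e T (τ (a * Q n) x) else 0 := by
    intro a x
    rw [Dt_eq d p i j t hM hT.symm hMpos hSM hen hsum a x]
    congr 1
    refine Finset.sum_congr rfl fun n hn => ?_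
    refine if_congr ?_ rfl rfl
    rw [hG, Finset.mem_filter, hcu]
    exact ⟨fun h => ⟨hn, h⟩, fun h => h.2⟩
  simp only [hDt]
  refine hbsm.trans ?_
  have hNR : (0 : ℝ) < (N : ℝ) := by exact_mod_cast hN0
  have hSR : (0 : ℝ) < (S : ℝ) := by exact_mod_cast hS0
  have hMR : (0 : ℝ) < ((M i : ℕ) : ℝ) := by exact_mod_cast hMpos i
  have hd1 : 8 * (k + 1) * d = 8 * (k + 1) * (d - 1) + 8 * (k + 1) := by
    obtain ⟨d', rfl⟩ : ∃ d', d = d' + 1 := ⟨d - 1, by omega⟩
    simp only [Nat.add_sub_cancel]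
    ring
  have hYA : Y / A = K ^ (7 * (k + 1)) / c := by
    rw [hY, hA, hMiR, ← pow_mul]
    have h1 : 8 * (k + 1) * d - (k + 1) = 8 * (k + 1) * (d - 1) + 7 * (k + 1) := by
      rw [hd1]; omega
    rw [h1, pow_add]
    field_simp
  have hTY : T / Y = 1 / K ^ (k + 1) := by
    rw [hY, hT]
    have h1 : 8 * (k + 1) * d - (k + 1) = (8 * (k + 1) * d - 2 * (k + 1)) + (k + 1) := by
      rw [hd1]; omega
    rw [h1, pow_add]
    field_simp
  have hcardle : (Near.card : ℝ) / (N : ℝ) ^ 2 ≤ (2 / c + 1) / K ^ (k + 1) := by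
    have h1 : (Near.card : ℝ) / (N : ℝ) ^ 2 ≤ (((S * M i : ℕ) : ℝ) * (S * (2 * Y / A + 1))) / (N : ℝ) ^ 2 :=
      div_le_div_of_nonneg_right hbad (by positivity)
    refine h1.trans ?_
    have h2 : (((S * M i : ℕ) : ℝ) * (S * (2 * Y / A + 1))) / (N : ℝ) ^ 2 =
        (2 * (Y / A) + 1) / ((M i : ℕ) : ℝ) := by
      rw [hN]
      push_cast
      field_simp
    rw [h2, hYA, hMiR]
    have h3 : K ^ (8 * (k + 1)) = K ^ (7 * (k + 1)) * K ^ (k + 1) := by
      rw [← pow_add]; congr 1; ring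
    rw [h3, div_le_div_iff₀ (by positivity) (by positivity)]
    have h4 : (1 : ℝ) ≤ K ^ (7 * (k + 1)) := one_le_pow₀ hK1
    have h5 : (2 / c + 1) * (K ^ (7 * (k + 1)) * K ^ (k + 1)) -
        (2 * (K ^ (7 * (k + 1)) / c) + 1) * K ^ (k + 1) = (K ^ (7 * (k + 1)) - 1) * K ^ (k + 1) := by
      field_simp
      ring
    have h6 : 0 ≤ (K ^ (7 * (k + 1)) - 1) * K ^ (k + 1) :=
      mul_nonneg (by linarith) (by positivity)
    linarith
  calc (Near.card : ℝ) / (N : ℝ) ^ 2 + 4 * T / Y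
      ≤ (2 / c + 1) / K ^ (k + 1) + 4 * (1 / K ^ (k + 1)) := by
        rw [mul_div_assoc, hTY]
        linarith
    _ = (2 / c + 5) / K ^ (k + 1) := by ring

theorem t_BCT1 (hE : S_ENUM) (hB : S_BBAD) (hC : S_BGC.{u}) (hS : S_BSM.{u}) : S_BCT1.{u} := by
  intro X _ μ _ τ e k d p hτ he he1 hk hp
  have key : ∀ (i : Fin k) (j : ℕ), ∀ᵐ a ∂(volume.restrict (Set.Icc (1 : ℝ) 2)), ∀ᵐ x ∂μ,
      ∀ η : ℝ, 0 < η → ∃ T₁ : ℕ, ∀ t : Fin k → ℕ, T₁ ≤ t i → (∀ l, t l ≤ t i) →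
        |Dt τ e d p i j t (a, x)| ≤ η := by
    intro i j
    obtain ⟨C, T₀, hCT⟩ := main_bound hE hB hS μ τ e k d p hτ he he1 hp i j
    have h1 := hC (ℝ × X) ((volume.restrict (Set.Icc (1 : ℝ) 2)).prod μ) k i
      (Dt τ e d p i j) C T₀ (Dt_meas hτ he d p i j) (Dt_bd hτ he he1 d p i j) (by
        intro t ht hlt
        refine le_trans (le_of_eq ?_) (hCT t ht hlt)
        rw [integral_prod]
        · rw [intervalIntegral.integral_of_le (by norm_num), integral_Icc_eq_integral_Ioc]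
        · refine Integrable.of_bound (C := 1)
            ((Dt_meas hτ he d p i j t).pow_const 2).aestronglyMeasurable ?_
          refine Eventually.of_forall fun ω => ?_
          rw [Real.norm_eq_abs, abs_of_nonneg (sq_nonneg _), ← sq_abs]
          exact pow_le_one₀ (abs_nonneg _) (Dt_bd hτ he he1 d p i j t ω))
    exact Measure.ae_ae_of_ae_prod h1
  have h2 : ∀ᵐ a ∂(volume.restrict (Set.Icc (1 : ℝ) 2)), ∀ (i : Fin k) (j : ℕ), ∀ᵐ x ∂μ,
      ∀ η : ℝ, 0 < η → ∃ T₁ : ℕ, ∀ t : Fin k → ℕ, T₁ ≤ t i → (∀ l, t l ≤ t i) →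
        |Dt τ e d p i j t (a, x)| ≤ η := by
    rw [ae_all_iff]
    intro i
    rw [ae_all_iff]
    intro j
    exact key i j
  filter_upwards [h2] with a ha
  have h3 : ∀ᵐ x ∂μ, ∀ (i : Fin k) (j : ℕ),
      ∀ η : ℝ, 0 < η → ∃ T₁ : ℕ, ∀ t : Fin k → ℕ, T₁ ≤ t i → (∀ l, t l ≤ t i) →
        |Dt τ e d p i j t (a, x)| ≤ η := by
    rw [ae_all_iff]
    intro i
    rw [ae_all_iff]
    intro j
    exact ha i j
  filter_upwards [h3] with x hx i j η hη
  exact hx i j η hη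

end Pool.Agent.R577.TB
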